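import Pool.Agent.FHQ.StmtsG

/-! Squad FHQ, block G, row PWR (helper10): classes of `m`-th powers are large. -/

open scoped BigOperators

noncomputable section

namespace Pool.Agent.FHQ.H10

open Pool.Agent.FHQ

theorem pwr : PwrStmt := by
  intro p hp m a S hm ha hS
  classical
  have hfin : S.Finite := Set.toFinite S
  have h1 : (Finset.univ.filter fun u : ZMod p => u ≠ 0).card ≤ m * hfin.toFinset.card := by
    refine Finset.card_le_mul_card_image_of_maps_to (f := fun u : ZMod p => a * u ^ m) ?_ m ?_
    · intro u hu
      rw [Set.Finite.mem_toFinset]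
      exact hS u (Finset.mem_filter.1 hu).2
    · intro b _
      have hsub : ((Finset.univ.filter fun u : ZMod p => u ≠ 0).filter
          fun u => a * u ^ m = b) ⊆ (Polynomial.nthRoots m (b / a)).toFinset := by
        intro u hu
        rw [Multiset.mem_toFinset, Polynomial.mem_nthRoots hm]
        rw [← (Finset.mem_filter.1 hu).2]
        field_simp
      exact (Finset.card_le_card hsub).trans
        ((Multiset.toFinset_card_le _).trans (Polynomial.card_nthRoots m _))
  have h2 : (Finset.univ.filter fun u : ZMod p => u ≠ 0).card = p - 1 := by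
    have h3 : (Finset.univ.filter fun u : ZMod p => u ≠ 0) = Finset.univ.erase 0 := by
      ext u; simp
    rw [h3, Finset.card_erase_of_mem (Finset.mem_univ _), Finset.card_univ, ZMod.card]
  have h4 : hfin.toFinset.card = S.ncard := (Set.ncard_eq_toFinset_card S hfin).symm
  have h5 : 0 < S.ncard := by
    rw [Set.ncard_pos hfin]
    exact ⟨_, hS 1 one_ne_zero⟩
  rw [h2, h4] at h1
  have h6 : 1 ≤ m * S.ncard := Nat.mul_pos hm h5
  have h7 : 2 * m * S.ncard = m * S.ncard + m * S.ncard := by ring
  have h8 := hp.out.pos
  omega

end Pool.Agent.FHQ.H10
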